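import Pool.Agent.MP_4bd596_co.Lower

set_option autoImplicit false

namespace Pool.Agent.Results.MP_4bd596_co.AllAlphabets

/-- Over every alphabet with at least three letters every positive integer n is the s-index of
a squarefree word of length at most exponential in n. -/
theorem result (k : ℕ) (hk : 3 ≤ k) :
    ∃ C : ℕ, ∀ n : ℕ, 1 ≤ n → ∃ w : List (Fin k),
      w ≠ [] ∧ w.length ≤ C ^ n ∧
      (∀ u : List (Fin k), u ≠ [] → ¬ (u ++ u <:+: w)) ∧
      (∃ y : List (Fin k), y.length = n - 1 ∧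
        ∀ u : List (Fin k), u ≠ [] → ¬ (u ++ u <:+: w ++ y)) ∧
      (∀ x : List (Fin k), n ≤ x.length →
        ∃ u : List (Fin k), u ≠ [] ∧ (u ++ u <:+: w ++ x)) := by
  obtain ⟨C, h⟩ := Pool.Agent.MP_4bd596_co.Low.lower_gen (e := Fin.castLE hk)
    (Fin.castLE_injective hk)
  refine ⟨C, fun n hn => ?_⟩
  obtain ⟨w, h0, h1, h2, ⟨y, h3, h4⟩, h5⟩ := h n hn
  refine ⟨w, h0, h1, Pool.Agent.MP_4bd596_co.Low.noSq_iff.1 h2,
    ⟨y, h3, Pool.Agent.MP_4bd596_co.Low.noSq_iff.1 h4⟩, fun x hx => ?_⟩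
  by_contra c
  exact h5 x hx (Pool.Agent.MP_4bd596_co.Low.noSq_iff.2 fun u hu hi => c ⟨u, hu, hi⟩)

end Pool.Agent.Results.MP_4bd596_co.AllAlphabets
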