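import Pool.Agent.MP_4bd596_co.Size

set_option autoImplicit false

namespace Pool.Agent.Results.MP_4bd596_co.SizeBound

/-- Finite subtrees of the tree of ternary squarefree words have logarithmic size. -/
theorem result : ∃ C : ℕ, ∀ w : List (Fin 3),
    {y : List (Fin 3) | ∀ u : List (Fin 3), u ≠ [] → ¬ (u ++ u <:+: w ++ y)}.Finite →
    {y : List (Fin 3) | ∀ u : List (Fin 3), u ≠ [] → ¬ (u ++ u <:+: w ++ y)}.ncard ≤
      C * (Nat.log 2 w.length + 1) :=
  Pool.Agent.MP_4bd596_co.size_le

end Pool.Agent.Results.MP_4bd596_co.SizeBound
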